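import Mathlib

/-!
# The Bhargava factorial of the set of twin primes: the identity fails at `n = 22`

For a set `X` of integers let `k!_X` be its Bhargava factorial. It was asked whether
`n!_{P2} = 2 w_2(n) n!_P` for every `n ≥ 1`, where `P` is the set of the primes, `P2` the set of the
twin primes and `w_2(n)` the largest power of `2` dividing `n`. This is false for `n = 22`: the prime `23`
is not a twin prime, so that `P2` has elements in only `22` residue classes modulo `23`, and `23` divides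
`22!_{P2}`; but `23` does not divide `22!_P`, because `P` has elements in all residue classes modulo `23`.
-/

set_option autoImplicit false

namespace Pool.Agent.Results.MP_e482b1_nt.FailsAtTwentyTwo

open Finset

/-- `a` is a `p`-ordering of the set `X`: every `a k` is in `X`, and it makes the power of `p` dividing
`∏_{i < k} (a k - a i)` as small as possible among the elements of `X`. (`emultiplicity p m` is the exponent
of the largest power of `p` dividing `m`; it is `⊤` for `m = 0`.) -/
def IsPOrdering (X : Set ℤ) (p : ℕ) (a : ℕ → ℤ) : Prop :=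
  (∀ k, a k ∈ X) ∧ ∀ k, ∀ x ∈ X,
    emultiplicity (p : ℤ) (∏ i ∈ range k, (a k - a i)) ≤ emultiplicity (p : ℤ) (∏ i ∈ range k, (x - a i))

/-- `F` is the Bhargava factorial `k!_X`: it is the positive integer which for every prime `p` is divisible by
exactly the same powers of `p` as `∏_{i < k} (a k - a i)`, where `a` is a `p`-ordering of `X`. (In particular
these products are not zero.) -/
def IsBhargavaFactorial (X : Set ℤ) (k F : ℕ) : Prop :=
  0 < F ∧ ∀ p : ℕ, p.Prime → ∃ a : ℕ → ℤ, IsPOrdering X p a ∧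
    emultiplicity (p : ℤ) (F : ℤ) = emultiplicity (p : ℤ) (∏ i ∈ range k, (a k - a i))

/-- the set of the primes, as a set of integers -/
def primes : Set ℤ := {x | ∃ p : ℕ, p.Prime ∧ x = p}

/-- the set of the primes `p` such that `p - 2` or `p + 2` is a prime, as a set of integers -/
def twinPrimes : Set ℤ := {x | ∃ p : ℕ, p.Prime ∧ ((p - 2).Prime ∨ (p + 2).Prime) ∧ x = p}

/-! ### Existence of orderings -/

/-- an element of `X` which makes the power of `p` in the product as small as possible -/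
theorem exists_next {X : Set ℤ} (hX : X.Nonempty) (p : ℕ) (l : List ℤ) :
    ∃ y ∈ X, ∀ x ∈ X, emultiplicity (p : ℤ) (l.map (fun a => y - a)).prod ≤
      emultiplicity (p : ℤ) (l.map (fun a => x - a)).prod := by
  have hne : ((fun y : ℤ => emultiplicity (p : ℤ) (l.map (fun a => y - a)).prod) '' X).Nonempty :=
    hX.image _
  obtain ⟨y, hy, hmin⟩ := WellFounded.min_mem (wellFounded_lt (α := ℕ∞)) _ hne
  refine ⟨y, hy, fun x hx => ?_⟩
  have h1 : emultiplicity (p : ℤ) (l.map (fun a => y - a)).prod =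
      WellFounded.min (wellFounded_lt (α := ℕ∞)) _ hne := hmin
  rw [h1]
  exact WellFounded.min_le _ (Set.mem_image_of_mem _ hx)

theorem exists_pOrdering {X : Set ℤ} (hX : X.Nonempty) (p : ℕ) : ∃ a : ℕ → ℤ, IsPOrdering X p a := by
  choose next h1 h2 using exists_next hX p
  let L : ℕ → List ℤ := fun n => Nat.rec [] (fun _ l => next l :: l) n
  have hL : ∀ n, L (n + 1) = next (L n) :: L n := fun _ => rfl
  have hprod : ∀ (n : ℕ) (x : ℤ), ((L n).map (fun a => x - a)).prod = ∏ i ∈ range n, (x - next (L i)) := by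
    intro n x
    induction n with
    | zero => simp [L]
    | succ n ih => rw [hL, List.map_cons, List.prod_cons, ih, prod_range_succ, mul_comm]
  refine ⟨fun n => next (L n), fun k => h1 _, fun k x hx => ?_⟩
  have := h2 (L k) x hx
  rwa [hprod, hprod] at this

/-! ### Residue classes -/

theorem prime_int {p : ℕ} (hp : p.Prime) : Prime (p : ℤ) := Nat.prime_iff_prime_int.mp hp

/-- If `X` has `k + 1` pairwise incongruent elements then the product is prime to `p`. -/
theorem not_dvd {X : Set ℤ} {p : ℕ} (hp : p.Prime) {a : ℕ → ℤ} (ha : IsPOrdering X p a) {k : ℕ}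
    (c : Finset ℤ) (hc : ∀ x ∈ c, x ∈ X) (hcard : k < c.card)
    (hinc : ∀ x ∈ c, ∀ y ∈ c, (p : ℤ) ∣ x - y → x = y) :
    ¬ (p : ℤ) ∣ ∏ i ∈ range k, (a k - a i) := by
  have hex : ∃ x ∈ c, ∀ i ∈ range k, ¬ (p : ℤ) ∣ x - a i := by
    by_contra hcon
    push Not at hcon
    choose! f hf1 hf2 using hcon
    obtain ⟨x, hx, y, hy, hxy, he⟩ := exists_ne_map_eq_of_card_lt_of_maps_to (s := c) (t := range k)
      (by simpa using hcard) (f := f) (fun x hx => hf1 x hx)
    apply hxy
    apply hinc x hx y hy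
    have e : x - y = (x - a (f x)) - (y - a (f y)) := by rw [he]; ring
    rw [e]
    exact dvd_sub (hf2 x hx) (hf2 y hy)
  obtain ⟨x, hx, hxa⟩ := hex
  have h0 : ¬ (p : ℤ) ∣ ∏ i ∈ range k, (x - a i) := by
    intro h
    obtain ⟨i, hi, hd⟩ := ((prime_int hp).dvd_finsetProd_iff _).mp h
    exact hxa i hi hd
  have h1 := ha.2 k x (hc x hx)
  rw [emultiplicity_eq_zero.mpr h0] at h1
  exact emultiplicity_eq_zero.mp (le_antisymm h1 bot_le)

/-- If `X` has elements in at most `k` residue classes modulo `p` then `p` divides the product. -/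
theorem dvd_of_classes {X : Set ℤ} {p : ℕ} {a : ℕ → ℤ} (ha : IsPOrdering X p a) {k : ℕ}
    (f : ℤ → ℕ) (hf : ∀ x ∈ X, f x < k) (hfe : ∀ x ∈ X, ∀ y ∈ X, f x = f y → (p : ℤ) ∣ x - y) :
    (p : ℤ) ∣ ∏ i ∈ range k, (a k - a i) := by
  obtain ⟨i, hi, j, hj, hij, he⟩ := exists_ne_map_eq_of_card_lt_of_maps_to (s := range (k + 1))
    (t := range k) (by simp) (f := fun i => f (a i)) (fun i _ => by simpa using hf _ (ha.1 i))
  have key : ∀ i j : ℕ, i < j → j < k + 1 → f (a i) = f (a j) →
      (p : ℤ) ∣ ∏ i ∈ range k, (a k - a i) := by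
    intro i j hij hj he
    have hd : (p : ℤ) ∣ ∏ l ∈ range j, (a j - a l) :=
      (hfe _ (ha.1 j) _ (ha.1 i) he.symm).trans (dvd_prod_of_mem _ (mem_range.mpr hij))
    have h1 := ha.2 j (a k) (ha.1 k)
    have hd2 : (p : ℤ) ∣ ∏ l ∈ range j, (a k - a l) := by
      rw [← emultiplicity_ne_zero] at hd ⊢
      intro h0
      rw [h0] at h1
      exact hd (le_antisymm h1 bot_le)
    exact hd2.trans (prod_dvd_prod_of_subset _ _ _ (range_subset_range.mpr (by omega)))
  rcases lt_or_gt_of_ne hij with h | h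
  · exact key i j h (by simpa using hj) he
  · exact key j i h (by simpa using hi) he.symm

/-! ### Existence of the factorials -/

/-- If `X` has more than `k` elements, then the product is not zero. -/
theorem prod_ne_zero_of_card {X : Set ℤ} {p : ℕ} (hp : p.Prime) {a : ℕ → ℤ} (ha : IsPOrdering X p a)
    {k : ℕ} (c : Finset ℤ) (hc : ∀ x ∈ c, x ∈ X) (hcard : k < c.card) :
    ∏ i ∈ range k, (a k - a i) ≠ 0 := by
  have hex : ∃ x ∈ c, ∀ i ∈ range k, x ≠ a i := by
    by_contra hcon
    push Not at hcon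
    have hsub : c ⊆ (range k).image a := by
      intro x hx
      obtain ⟨i, hi, h⟩ := hcon x hx
      exact mem_image.mpr ⟨i, hi, h.symm⟩
    have := (card_le_card hsub).trans card_image_le
    rw [card_range] at this
    omega
  obtain ⟨x, hx, hxa⟩ := hex
  have h0 : ∏ i ∈ range k, (x - a i) ≠ 0 :=
    prod_ne_zero_iff.mpr (fun i hi => sub_ne_zero.mpr (hxa i hi))
  have h1 := ha.2 k x (hc x hx)
  intro h
  rw [h, emultiplicity_zero, top_le_iff] at h1
  have hfin : FiniteMultiplicity (p : ℤ) (∏ i ∈ range k, (x - a i)) :=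
    FiniteMultiplicity.of_prime_left (prime_int hp) h0
  exact (finiteMultiplicity_iff_emultiplicity_ne_top.mp hfin) h1

/-- The Bhargava factorial `k!_X` exists if `X` has more than `k` positive elements `c`. -/
theorem exists_factorial {X : Set ℤ} {k : ℕ} (c : Finset ℤ) (hc : ∀ x ∈ c, x ∈ X) (hcard : k < c.card)
    (hpos : ∀ x ∈ c, 0 < x) : ∃ F : ℕ, IsBhargavaFactorial X k F := by
  classical
  have hne : X.Nonempty := by
    obtain ⟨x, hx⟩ := card_pos.mp (lt_of_le_of_lt (Nat.zero_le k) hcard)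
    exact ⟨x, hc x hx⟩
  choose a ha using exists_pOrdering hne
  let P : ℕ → ℤ := fun p => ∏ i ∈ range k, (a p k - a p i)
  have hP0 : ∀ p : ℕ, p.Prime → P p ≠ 0 := fun p hp => prod_ne_zero_of_card hp (ha p) c hc hcard
  have hbig : ∀ p : ℕ, p.Prime → c.sup Int.toNat < p → ¬ (p : ℤ) ∣ P p := by
    intro p hp hpc
    refine not_dvd hp (ha p) c hc hcard ?_
    intro x hx y hy hd
    have hx1 := hpos x hx
    have hy1 := hpos y hy
    have hx2 : x.toNat < p := (Finset.le_sup (f := Int.toNat) hx).trans_lt hpc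
    have hy2 : y.toNat < p := (Finset.le_sup (f := Int.toNat) hy).trans_lt hpc
    have h3 : |x - y| < p := by
      rw [abs_lt]; omega
    have := Int.eq_zero_of_abs_lt_dvd hd h3
    omega
  let B := c.sup Int.toNat + 1
  let e : ℕ → ℕ := fun p => if p.Prime then multiplicity (p : ℤ) (P p) else 0
  let F : ℕ := ∏ p ∈ (range B).filter Nat.Prime, p ^ e p
  have hF0 : F ≠ 0 := prod_ne_zero_iff.mpr (fun p hp => pow_ne_zero _ (mem_filter.mp hp).2.ne_zero)
  refine ⟨F, Nat.pos_of_ne_zero hF0, fun p hp => ⟨a p, ha p, ?_⟩⟩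
  change emultiplicity (p : ℤ) (F : ℤ) = emultiplicity (p : ℤ) (P p)
  rw [Int.natCast_emultiplicity]
  have hpm : Prime p := hp.prime
  by_cases hpB : p ∈ (range B).filter Nat.Prime
  · have h1 : F = p ^ e p * ∏ q ∈ ((range B).filter Nat.Prime).erase p, q ^ e q :=
      (mul_prod_erase _ _ hpB).symm
    have h2 : ¬ p ∣ ∏ q ∈ ((range B).filter Nat.Prime).erase p, q ^ e q := by
      intro h
      obtain ⟨q, hq, hd⟩ := (hpm.dvd_finsetProd_iff _).mp h
      have hq' := mem_erase.mp hq
      have := (Nat.prime_dvd_prime_iff_eq hp (mem_filter.mp hq'.2).2).mp (hpm.dvd_of_dvd_pow hd)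
      exact hq'.1 this.symm
    rw [h1, emultiplicity_mul hpm, emultiplicity_eq_zero.mpr h2, add_zero,
      emultiplicity_pow_self hp.ne_zero hpm.not_isUnit]
    have he : e p = multiplicity (p : ℤ) (P p) := if_pos hp
    rw [he]
    exact ((FiniteMultiplicity.of_prime_left (prime_int hp) (hP0 p hp)).emultiplicity_eq_multiplicity).symm
  · have h1 : ¬ p ∣ F := by
      intro h
      obtain ⟨q, hq, hd⟩ := (hpm.dvd_finsetProd_iff _).mp h
      have := (Nat.prime_dvd_prime_iff_eq hp (mem_filter.mp hq).2).mp (hpm.dvd_of_dvd_pow hd)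
      exact hpB (this ▸ hq)
    have h2 : c.sup Int.toNat < p := by
      by_contra hcon
      exact hpB (mem_filter.mpr ⟨mem_range.mpr (by omega), hp⟩)
    rw [emultiplicity_eq_zero.mpr h1, emultiplicity_eq_zero.mpr (hbig p hp h2)]

/-! ### The two sets -/

/-- primes in all residue classes modulo `23` -/
def cP : Finset ℤ := {2, 3, 5, 7, 11, 13, 17, 19, 23, 29, 31, 37, 41, 43, 47, 61, 67, 73, 79, 101, 127, 131, 137}

/-- some twin primes -/
def cT : Finset ℤ :=
  {3, 5, 7, 11, 13, 17, 19, 29, 31, 41, 43, 59, 61, 71, 73, 101, 103, 107, 109, 137, 139, 149, 151}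

theorem cP_mem : ∀ x ∈ cP, x ∈ primes := by
  intro x hx
  simp only [cP, mem_insert, mem_singleton] at hx
  rcases hx with rfl | rfl | rfl | rfl | rfl | rfl | rfl | rfl | rfl | rfl | rfl | rfl | rfl | rfl | rfl | rfl |
    rfl | rfl | rfl | rfl | rfl | rfl | rfl
  · exact ⟨2, by norm_num, by norm_num⟩
  · exact ⟨3, by norm_num, by norm_num⟩
  · exact ⟨5, by norm_num, by norm_num⟩
  · exact ⟨7, by norm_num, by norm_num⟩
  · exact ⟨11, by norm_num, by norm_num⟩
  · exact ⟨13, by norm_num, by norm_num⟩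
  · exact ⟨17, by norm_num, by norm_num⟩
  · exact ⟨19, by norm_num, by norm_num⟩
  · exact ⟨23, by norm_num, by norm_num⟩
  · exact ⟨29, by norm_num, by norm_num⟩
  · exact ⟨31, by norm_num, by norm_num⟩
  · exact ⟨37, by norm_num, by norm_num⟩
  · exact ⟨41, by norm_num, by norm_num⟩
  · exact ⟨43, by norm_num, by norm_num⟩
  · exact ⟨47, by norm_num, by norm_num⟩
  · exact ⟨61, by norm_num, by norm_num⟩
  · exact ⟨67, by norm_num, by norm_num⟩
  · exact ⟨73, by norm_num, by norm_num⟩
  · exact ⟨79, by norm_num, by norm_num⟩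
  · exact ⟨101, by norm_num, by norm_num⟩
  · exact ⟨127, by norm_num, by norm_num⟩
  · exact ⟨131, by norm_num, by norm_num⟩
  · exact ⟨137, by norm_num, by norm_num⟩

theorem cT_mem : ∀ x ∈ cT, x ∈ twinPrimes := by
  intro x hx
  simp only [cT, mem_insert, mem_singleton] at hx
  rcases hx with rfl | rfl | rfl | rfl | rfl | rfl | rfl | rfl | rfl | rfl | rfl | rfl | rfl | rfl | rfl | rfl |
    rfl | rfl | rfl | rfl | rfl | rfl | rfl
  · exact ⟨3, by norm_num, Or.inr (by norm_num), by norm_num⟩
  · exact ⟨5, by norm_num, Or.inr (by norm_num), by norm_num⟩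
  · exact ⟨7, by norm_num, Or.inl (by norm_num), by norm_num⟩
  · exact ⟨11, by norm_num, Or.inr (by norm_num), by norm_num⟩
  · exact ⟨13, by norm_num, Or.inl (by norm_num), by norm_num⟩
  · exact ⟨17, by norm_num, Or.inr (by norm_num), by norm_num⟩
  · exact ⟨19, by norm_num, Or.inl (by norm_num), by norm_num⟩
  · exact ⟨29, by norm_num, Or.inr (by norm_num), by norm_num⟩
  · exact ⟨31, by norm_num, Or.inl (by norm_num), by norm_num⟩
  · exact ⟨41, by norm_num, Or.inr (by norm_num), by norm_num⟩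
  · exact ⟨43, by norm_num, Or.inl (by norm_num), by norm_num⟩
  · exact ⟨59, by norm_num, Or.inr (by norm_num), by norm_num⟩
  · exact ⟨61, by norm_num, Or.inl (by norm_num), by norm_num⟩
  · exact ⟨71, by norm_num, Or.inr (by norm_num), by norm_num⟩
  · exact ⟨73, by norm_num, Or.inl (by norm_num), by norm_num⟩
  · exact ⟨101, by norm_num, Or.inr (by norm_num), by norm_num⟩
  · exact ⟨103, by norm_num, Or.inl (by norm_num), by norm_num⟩
  · exact ⟨107, by norm_num, Or.inr (by norm_num), by norm_num⟩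
  · exact ⟨109, by norm_num, Or.inl (by norm_num), by norm_num⟩
  · exact ⟨137, by norm_num, Or.inr (by norm_num), by norm_num⟩
  · exact ⟨139, by norm_num, Or.inl (by norm_num), by norm_num⟩
  · exact ⟨149, by norm_num, Or.inr (by norm_num), by norm_num⟩
  · exact ⟨151, by norm_num, Or.inl (by norm_num), by norm_num⟩

theorem twin_mod (x : ℤ) (hx : x ∈ twinPrimes) : (x % 23).toNat - 1 < 22 ∧ 0 < (x % 23).toNat := by
  obtain ⟨p, hp, htw, rfl⟩ := hx
  have h1 : ¬ 23 ∣ p := by
    intro hd
    have : p = 23 := ((Nat.prime_dvd_prime_iff_eq (by norm_num) hp).mp hd).symm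
    subst this
    rcases htw with h | h
    · exact absurd h (by norm_num)
    · exact absurd h (by norm_num)
  omega

/-- **The identity `n!_{P2} = 2 w_2(n) n!_P` is false for `n = 22`.** Both factorials are defined, and for
all values of them (that is, for all choices of the orderings) the identity fails; in fact `23` divides
`22!_{P2}` and not `22!_P`. -/
theorem result :
    (∃ F, IsBhargavaFactorial twinPrimes 22 F) ∧ (∃ G, IsBhargavaFactorial primes 22 G) ∧
    ∀ F G : ℕ, IsBhargavaFactorial twinPrimes 22 F → IsBhargavaFactorial primes 22 G →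
      23 ∣ F ∧ ¬ 23 ∣ G ∧ F ≠ 2 * 2 ^ (padicValNat 2 22) * G := by
  refine ⟨exists_factorial cT cT_mem (by decide) (by decide),
    exists_factorial cP cP_mem (by decide) (by decide), fun F G hF hG => ?_⟩
  have hp23 : Nat.Prime 23 := by norm_num
  obtain ⟨a, ha, hFa⟩ := hF.2 23 hp23
  obtain ⟨b, hb, hGb⟩ := hG.2 23 hp23
  have h1 : 23 ∣ F := by
    have h : ((23 : ℕ) : ℤ) ∣ ∏ i ∈ range 22, (a 22 - a i) := by
      refine dvd_of_classes ha (fun x => (x % 23).toNat - 1) (fun x hx => (twin_mod x hx).1) ?_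
      intro x hx y hy he
      have hx' := (twin_mod x hx).2
      have hy' := (twin_mod y hy).2
      push_cast
      omega
    rw [← emultiplicity_ne_zero, ← hFa, emultiplicity_ne_zero] at h
    exact_mod_cast h
  have h2 : ¬ 23 ∣ G := by
    have h : ¬ ((23 : ℕ) : ℤ) ∣ ∏ i ∈ range 22, (b 22 - b i) := by
      refine not_dvd hp23 hb cP cP_mem (by decide) ?_
      decide
    rw [← emultiplicity_eq_zero, ← hGb, emultiplicity_eq_zero] at h
    exact_mod_cast h
  refine ⟨h1, h2, fun h => ?_⟩
  have h3 : 23 ∣ 2 * 2 ^ (padicValNat 2 22) * G := h ▸ h1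
  rcases (Nat.Prime.dvd_mul hp23).mp h3 with h4 | h4
  · rcases (Nat.Prime.dvd_mul hp23).mp h4 with h5 | h5
    · exact absurd h5 (by norm_num)
    · exact absurd (hp23.dvd_of_dvd_pow h5) (by norm_num)
  · exact h2 h4

end Pool.Agent.Results.MP_e482b1_nt.FailsAtTwentyTwo
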